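import Pool.Agent.H52.PAN.Targets

/-!
Row F_TYP of the board pan.
-/

namespace Pool.Agent.H45.PAN

open Finset Pool.Agent.H52.PAN

theorem pf_TYP : T_TYP := by
  intro n π _ c hc t
  obtain ⟨h1, _, h3, _⟩ := hc
  refine ⟨fun h => h.2.2.1, fun h => ?_, fun h => ?_, fun h => ?_⟩
  · have h2 := h.2.1
    rwa [Nat.add_sub_cancel] at h2
  · have h2 := h.2.2.2.2
    rwa [Equiv.apply_symm_apply] at h2
  · have h2 := h.2.2.2.1
    rwa [Equiv.apply_symm_apply, Nat.add_sub_cancel] at h2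

end Pool.Agent.H45.PAN
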